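import Pool.Agent.Helper68.BA.Defs

/-!
# Module C: the residues (interpolation and Cauchy identities)
-/

set_option autoImplicit false

noncomputable section

namespace Pool.Agent.Helper68.BA

open Finset

lemma rc_mul (b : ℝ) (K j : ℕ) : rc b K j * ∏ i ∈ (range K).erase j, ((j : ℝ) - i) =
    ∏ i ∈ range K, (2 * b + 1 + i + j) := by
  have h : ∏ i ∈ (range K).erase j, ((j : ℝ) - i) ≠ 0 := by
    rw [prod_ne_zero_iff]
    intro i hi h0
    rw [mem_erase] at hi
    apply hi.1
    have : (j : ℝ) = i := by linarith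
    exact_mod_cast this.symm
  rw [rc, div_mul_cancel₀ _ h]

theorem rc_poly (b : ℝ) (K : ℕ) :
    (∏ i ∈ Finset.range K, (Polynomial.X + Polynomial.C (b + 1 + i)) : Polynomial ℝ) =
      ∏ i ∈ Finset.range K, (Polynomial.X - Polynomial.C (b + i)) +
        ∑ j ∈ Finset.range K, Polynomial.C (rc b K j) *
          ∏ i ∈ (Finset.range K).erase j, (Polynomial.X - Polynomial.C (b + i)) := by
  have hP : (∏ i ∈ Finset.range K, (Polynomial.X + Polynomial.C (b + 1 + i)) : Polynomial ℝ) =
      ∏ i ∈ range K, (Polynomial.X - Polynomial.C (-(b + 1 + i))) := by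
    apply prod_congr rfl
    intro i _
    rw [Polynomial.C_neg, sub_neg_eq_add]
  have hPm : (∏ i ∈ range K, (Polynomial.X - Polynomial.C (-(b + 1 + (i : ℝ))))).Monic :=
    Polynomial.monic_prod_X_sub_C _ _
  have hQm : (∏ i ∈ range K, (Polynomial.X - Polynomial.C (b + (i : ℝ)))).Monic :=
    Polynomial.monic_prod_X_sub_C _ _
  have hPd : (∏ i ∈ range K, (Polynomial.X - Polynomial.C (-(b + 1 + (i : ℝ))))).degree =
      (K : WithBot ℕ) := by
    rw [Polynomial.degree_eq_natDegree hPm.ne_zero,
      Polynomial.natDegree_finsetProd_X_sub_C_eq_card, card_range]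
  have hQd : (∏ i ∈ range K, (Polynomial.X - Polynomial.C (b + (i : ℝ)))).degree =
      (K : WithBot ℕ) := by
    rw [Polynomial.degree_eq_natDegree hQm.ne_zero,
      Polynomial.natDegree_finsetProd_X_sub_C_eq_card, card_range]
  rw [← sub_eq_zero, ← sub_sub]
  refine Polynomial.eq_zero_of_degree_lt_of_eval_index_eq_zero (v := fun i : ℕ => b + (i : ℝ))
    (s := range K) ?_ ?_ ?_
  · intro i _ j _ hij
    have : (i : ℝ) = j := by simpa using hij
    exact_mod_cast this
  · rw [card_range]
    refine lt_of_le_of_lt (Polynomial.degree_sub_le _ _) (max_lt ?_ ?_)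
    · rw [hP, ← hPd]
      exact Polynomial.degree_sub_lt_left (by rw [hPd, hQd]) hPm.ne_zero
        (by rw [hPm.leadingCoeff, hQm.leadingCoeff])
    · rcases Nat.eq_zero_or_pos K with h0 | h0
      · subst h0
        simp
      · refine lt_of_le_of_lt (Polynomial.degree_sum_le _ _) ?_
        rw [Finset.sup_lt_iff (by exact_mod_cast WithBot.bot_lt_coe K)]
        intro j hj
        have h1 : (∏ i ∈ (range K).erase j, (Polynomial.X - Polynomial.C (b + (i : ℝ)))).degree =
            ((K - 1 : ℕ) : WithBot ℕ) := by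
          rw [Polynomial.degree_eq_natDegree (Polynomial.monic_prod_X_sub_C _ _).ne_zero,
            Polynomial.natDegree_finsetProd_X_sub_C_eq_card, card_erase_of_mem hj, card_range]
        have h2 : (Polynomial.C (rc b K j) * ∏ i ∈ (range K).erase j,
            (Polynomial.X - Polynomial.C (b + (i : ℝ)))).degree ≤ ((K - 1 : ℕ) : WithBot ℕ) := by
          rw [Polynomial.degree_mul, h1]
          calc (Polynomial.C (rc b K j)).degree + ((K - 1 : ℕ) : WithBot ℕ) ≤
              0 + ((K - 1 : ℕ) : WithBot ℕ) := add_le_add_left Polynomial.degree_C_le _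
            _ = _ := zero_add _
        refine lt_of_le_of_lt h2 ?_
        exact_mod_cast (by omega : K - 1 < K)
  · intro j hj
    rw [Polynomial.eval_sub, Polynomial.eval_sub, Polynomial.eval_prod, Polynomial.eval_prod,
      Polynomial.eval_finsetSum]
    have h1 : ∏ i ∈ range K, Polynomial.eval (b + (j : ℝ))
        (Polynomial.X - Polynomial.C (b + (i : ℝ))) = 0 := by
      apply prod_eq_zero hj
      simp
    have h2 : ∑ l ∈ range K, Polynomial.eval (b + (j : ℝ)) (Polynomial.C (rc b K l) *
        ∏ i ∈ (range K).erase l, (Polynomial.X - Polynomial.C (b + (i : ℝ)))) =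
        ∏ i ∈ range K, (2 * b + 1 + i + j) := by
      rw [← rc_mul, sum_eq_single_of_mem j hj]
      · rw [Polynomial.eval_mul, Polynomial.eval_C, Polynomial.eval_prod]
        congr 1
        apply prod_congr rfl
        intro i _
        simp
      · intro l _ hlj
        rw [Polynomial.eval_mul, Polynomial.eval_prod, prod_eq_zero (i := j), mul_zero]
        · exact mem_erase.mpr ⟨hlj.symm, hj⟩
        · simp
    rw [h1, h2, sub_zero, sub_eq_zero]
    apply prod_congr rfl
    intro i _
    simp only [Polynomial.eval_add, Polynomial.eval_X, Polynomial.eval_C]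
    ring

theorem rc_cauchy (b : ℝ) (hb : 0 ≤ b) (K j : ℕ) (hj : j < K) :
    ∑ i ∈ Finset.range K, rc b K i / (2 * b + 1 + i + j) = 1 := by
  have h := congrArg (Polynomial.eval (-(b + 1 + (j : ℝ)))) (rc_poly b K)
  rw [Polynomial.eval_add, Polynomial.eval_prod, Polynomial.eval_prod,
    Polynomial.eval_finsetSum] at h
  have h0 : ∏ i ∈ range K, Polynomial.eval (-(b + 1 + (j : ℝ)))
      (Polynomial.X + Polynomial.C (b + 1 + (i : ℝ))) = 0 := by
    apply prod_eq_zero (mem_range.mpr hj)
    rw [Polynomial.eval_add, Polynomial.eval_X, Polynomial.eval_C]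
    ring
  rw [h0] at h
  set A := ∏ i ∈ range K, Polynomial.eval (-(b + 1 + (j : ℝ)))
      (Polynomial.X - Polynomial.C (b + (i : ℝ))) with hA
  have hfac : ∀ i : ℕ, Polynomial.eval (-(b + 1 + (j : ℝ)))
      (Polynomial.X - Polynomial.C (b + (i : ℝ))) = -(2 * b + 1 + i + j) := by
    intro i
    simp only [Polynomial.eval_sub, Polynomial.eval_X, Polynomial.eval_C]
    ring
  have hpos : ∀ i : ℕ, (2 * b + 1 + i + j : ℝ) ≠ 0 := by
    intro i
    have h1 : (0 : ℝ) ≤ i := Nat.cast_nonneg i
    have h2 : (0 : ℝ) ≤ j := Nat.cast_nonneg j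
    linarith
  have hA0 : A ≠ 0 := by
    rw [hA, prod_ne_zero_iff]
    intro i _
    rw [hfac]
    exact neg_ne_zero.mpr (hpos i)
  have hterm : ∀ l ∈ range K, Polynomial.eval (-(b + 1 + (j : ℝ))) (Polynomial.C (rc b K l) *
      ∏ i ∈ (range K).erase l, (Polynomial.X - Polynomial.C (b + (i : ℝ)))) =
      -A * (rc b K l / (2 * b + 1 + l + j)) := by
    intro l hl
    rw [Polynomial.eval_mul, Polynomial.eval_C, Polynomial.eval_prod]
    have h1 : A = (∏ i ∈ (range K).erase l, Polynomial.eval (-(b + 1 + (j : ℝ)))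
        (Polynomial.X - Polynomial.C (b + (i : ℝ)))) * -(2 * b + 1 + l + j) := by
      rw [hA, ← prod_erase_mul _ _ hl, hfac l]
    rw [h1]
    field_simp [hpos l]
  rw [sum_congr rfl hterm, ← mul_sum] at h
  have h3 : A * (1 - ∑ i ∈ range K, rc b K i / (2 * b + 1 + i + j)) = 0 := by
    rw [mul_sub, mul_one]
    linarith
  rcases mul_eq_zero.mp h3 with h4 | h4
  · exact absurd h4 hA0
  · linarith

end Pool.Agent.Helper68.BA
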